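import Pool.Agent.Helper52.TB.X00
import Pool.Agent.Helper52.TB.X01
import Pool.Agent.Helper52.TB.X02
import Pool.Agent.Helper52.TB.X03
import Pool.Agent.Helper52.TB.X04
import Pool.Agent.Helper52.TB.X05
import Pool.Agent.Helper52.TB.X06
import Pool.Agent.Helper52.TB.X07
import Pool.Agent.Helper52.TB.X08
import Pool.Agent.Helper52.TB.X09
import Pool.Agent.Helper52.TB.X10
import Pool.Agent.Helper52.TB.X11
import Pool.Agent.Helper52.TB.X12
import Pool.Agent.Helper52.TB.X13
import Pool.Agent.Helper52.TB.X14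
import Pool.Agent.Helper52.TB.X15

/-!
MP_8ee768_co, project TH-Y', stage A: random access to the layered rows.

`rowX t` is the list of the chunks of the type `t` (numbering of helper16, `2 ≤ t < 5074`): lane
`i` of the row is the field `i % 64` (stride 512) of the chunk `i / 64`, in the order of
`Pool.Agent.Helper7.TB.row t`. A lane is the dense code (`dms` in `Helper52/TY/Expand.lean`) of the
masks of weight 4 (quads of `D` avoiding the apex), weight 3 (triples covered at least 3 times),
weight 1 (points of degree at least 21) and 0, 11 (the digits of `M / 2`).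
-/

set_option autoImplicit false

namespace Pool.Agent.Helper52.TB

/-- chunks of the types `0 ..` -/
def xs0 (k r : ℕ) : List ℕ :=
 (bif Nat.ble 8 k then
 (bif Nat.ble 12 k then
  (bif Nat.ble 14 k then
   (bif Nat.ble 15 k then
    (xw15 r) else
    (xw14 r)) else
   (bif Nat.ble 13 k then
    (xw13 r) else
    (xw12 r))) else
  (bif Nat.ble 10 k then
   (bif Nat.ble 11 k then
    (xw11 r) else
    (xw10 r)) else
   (bif Nat.ble 9 k then
    (xw9 r) else
    (xw8 r)))) else
 (bif Nat.ble 4 k then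
  (bif Nat.ble 6 k then
   (bif Nat.ble 7 k then
    (xw7 r) else
    (xw6 r)) else
   (bif Nat.ble 5 k then
    (xw5 r) else
    (xw4 r))) else
  (bif Nat.ble 2 k then
   (bif Nat.ble 3 k then
    (xw3 r) else
    (xw2 r)) else
   (bif Nat.ble 1 k then
    (xw1 r) else
    (xw0 r)))))

/-- chunks of the types `256 ..` -/
def xs1 (k r : ℕ) : List ℕ :=
 (bif Nat.ble 8 k then
 (bif Nat.ble 12 k then
  (bif Nat.ble 14 k then
   (bif Nat.ble 15 k then
    (xw31 r) else
    (xw30 r)) else
   (bif Nat.ble 13 k then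
    (xw29 r) else
    (xw28 r))) else
  (bif Nat.ble 10 k then
   (bif Nat.ble 11 k then
    (xw27 r) else
    (xw26 r)) else
   (bif Nat.ble 9 k then
    (xw25 r) else
    (xw24 r)))) else
 (bif Nat.ble 4 k then
  (bif Nat.ble 6 k then
   (bif Nat.ble 7 k then
    (xw23 r) else
    (xw22 r)) else
   (bif Nat.ble 5 k then
    (xw21 r) else
    (xw20 r))) else
  (bif Nat.ble 2 k then
   (bif Nat.ble 3 k then
    (xw19 r) else
    (xw18 r)) else
   (bif Nat.ble 1 k then
    (xw17 r) else
    (xw16 r)))))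

/-- chunks of the types `512 ..` -/
def xs2 (k r : ℕ) : List ℕ :=
 (bif Nat.ble 8 k then
 (bif Nat.ble 12 k then
  (bif Nat.ble 14 k then
   (bif Nat.ble 15 k then
    (xw47 r) else
    (xw46 r)) else
   (bif Nat.ble 13 k then
    (xw45 r) else
    (xw44 r))) else
  (bif Nat.ble 10 k then
   (bif Nat.ble 11 k then
    (xw43 r) else
    (xw42 r)) else
   (bif Nat.ble 9 k then
    (xw41 r) else
    (xw40 r)))) else
 (bif Nat.ble 4 k then
  (bif Nat.ble 6 k then
   (bif Nat.ble 7 k then
    (xw39 r) else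
    (xw38 r)) else
   (bif Nat.ble 5 k then
    (xw37 r) else
    (xw36 r))) else
  (bif Nat.ble 2 k then
   (bif Nat.ble 3 k then
    (xw35 r) else
    (xw34 r)) else
   (bif Nat.ble 1 k then
    (xw33 r) else
    (xw32 r)))))

/-- chunks of the types `768 ..` -/
def xs3 (k r : ℕ) : List ℕ :=
 (bif Nat.ble 8 k then
 (bif Nat.ble 12 k then
  (bif Nat.ble 14 k then
   (bif Nat.ble 15 k then
    (xw63 r) else
    (xw62 r)) else
   (bif Nat.ble 13 k then
    (xw61 r) else
    (xw60 r))) else
  (bif Nat.ble 10 k then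
   (bif Nat.ble 11 k then
    (xw59 r) else
    (xw58 r)) else
   (bif Nat.ble 9 k then
    (xw57 r) else
    (xw56 r)))) else
 (bif Nat.ble 4 k then
  (bif Nat.ble 6 k then
   (bif Nat.ble 7 k then
    (xw55 r) else
    (xw54 r)) else
   (bif Nat.ble 5 k then
    (xw53 r) else
    (xw52 r))) else
  (bif Nat.ble 2 k then
   (bif Nat.ble 3 k then
    (xw51 r) else
    (xw50 r)) else
   (bif Nat.ble 1 k then
    (xw49 r) else
    (xw48 r)))))

/-- chunks of the types `1024 ..` -/
def xs4 (k r : ℕ) : List ℕ :=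
 (bif Nat.ble 8 k then
 (bif Nat.ble 12 k then
  (bif Nat.ble 14 k then
   (bif Nat.ble 15 k then
    (xw79 r) else
    (xw78 r)) else
   (bif Nat.ble 13 k then
    (xw77 r) else
    (xw76 r))) else
  (bif Nat.ble 10 k then
   (bif Nat.ble 11 k then
    (xw75 r) else
    (xw74 r)) else
   (bif Nat.ble 9 k then
    (xw73 r) else
    (xw72 r)))) else
 (bif Nat.ble 4 k then
  (bif Nat.ble 6 k then
   (bif Nat.ble 7 k then
    (xw71 r) else
    (xw70 r)) else
   (bif Nat.ble 5 k then
    (xw69 r) else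
    (xw68 r))) else
  (bif Nat.ble 2 k then
   (bif Nat.ble 3 k then
    (xw67 r) else
    (xw66 r)) else
   (bif Nat.ble 1 k then
    (xw65 r) else
    (xw64 r)))))

/-- chunks of the types `1280 ..` -/
def xs5 (k r : ℕ) : List ℕ :=
 (bif Nat.ble 8 k then
 (bif Nat.ble 12 k then
  (bif Nat.ble 14 k then
   (bif Nat.ble 15 k then
    (xw95 r) else
    (xw94 r)) else
   (bif Nat.ble 13 k then
    (xw93 r) else
    (xw92 r))) else
  (bif Nat.ble 10 k then
   (bif Nat.ble 11 k then
    (xw91 r) else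
    (xw90 r)) else
   (bif Nat.ble 9 k then
    (xw89 r) else
    (xw88 r)))) else
 (bif Nat.ble 4 k then
  (bif Nat.ble 6 k then
   (bif Nat.ble 7 k then
    (xw87 r) else
    (xw86 r)) else
   (bif Nat.ble 5 k then
    (xw85 r) else
    (xw84 r))) else
  (bif Nat.ble 2 k then
   (bif Nat.ble 3 k then
    (xw83 r) else
    (xw82 r)) else
   (bif Nat.ble 1 k then
    (xw81 r) else
    (xw80 r)))))

/-- chunks of the types `1536 ..` -/
def xs6 (k r : ℕ) : List ℕ :=
 (bif Nat.ble 8 k then
 (bif Nat.ble 12 k then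
  (bif Nat.ble 14 k then
   (bif Nat.ble 15 k then
    (xw111 r) else
    (xw110 r)) else
   (bif Nat.ble 13 k then
    (xw109 r) else
    (xw108 r))) else
  (bif Nat.ble 10 k then
   (bif Nat.ble 11 k then
    (xw107 r) else
    (xw106 r)) else
   (bif Nat.ble 9 k then
    (xw105 r) else
    (xw104 r)))) else
 (bif Nat.ble 4 k then
  (bif Nat.ble 6 k then
   (bif Nat.ble 7 k then
    (xw103 r) else
    (xw102 r)) else
   (bif Nat.ble 5 k then
    (xw101 r) else
    (xw100 r))) else
  (bif Nat.ble 2 k then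
   (bif Nat.ble 3 k then
    (xw99 r) else
    (xw98 r)) else
   (bif Nat.ble 1 k then
    (xw97 r) else
    (xw96 r)))))

/-- chunks of the types `1792 ..` -/
def xs7 (k r : ℕ) : List ℕ :=
 (bif Nat.ble 8 k then
 (bif Nat.ble 12 k then
  (bif Nat.ble 14 k then
   (bif Nat.ble 15 k then
    (xw127 r) else
    (xw126 r)) else
   (bif Nat.ble 13 k then
    (xw125 r) else
    (xw124 r))) else
  (bif Nat.ble 10 k then
   (bif Nat.ble 11 k then
    (xw123 r) else
    (xw122 r)) else
   (bif Nat.ble 9 k then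
    (xw121 r) else
    (xw120 r)))) else
 (bif Nat.ble 4 k then
  (bif Nat.ble 6 k then
   (bif Nat.ble 7 k then
    (xw119 r) else
    (xw118 r)) else
   (bif Nat.ble 5 k then
    (xw117 r) else
    (xw116 r))) else
  (bif Nat.ble 2 k then
   (bif Nat.ble 3 k then
    (xw115 r) else
    (xw114 r)) else
   (bif Nat.ble 1 k then
    (xw113 r) else
    (xw112 r)))))

/-- chunks of the types `2048 ..` -/
def xs8 (k r : ℕ) : List ℕ :=
 (bif Nat.ble 8 k then
 (bif Nat.ble 12 k then
  (bif Nat.ble 14 k then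
   (bif Nat.ble 15 k then
    (xw143 r) else
    (xw142 r)) else
   (bif Nat.ble 13 k then
    (xw141 r) else
    (xw140 r))) else
  (bif Nat.ble 10 k then
   (bif Nat.ble 11 k then
    (xw139 r) else
    (xw138 r)) else
   (bif Nat.ble 9 k then
    (xw137 r) else
    (xw136 r)))) else
 (bif Nat.ble 4 k then
  (bif Nat.ble 6 k then
   (bif Nat.ble 7 k then
    (xw135 r) else
    (xw134 r)) else
   (bif Nat.ble 5 k then
    (xw133 r) else
    (xw132 r))) else
  (bif Nat.ble 2 k then
   (bif Nat.ble 3 k then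
    (xw131 r) else
    (xw130 r)) else
   (bif Nat.ble 1 k then
    (xw129 r) else
    (xw128 r)))))

/-- chunks of the types `2304 ..` -/
def xs9 (k r : ℕ) : List ℕ :=
 (bif Nat.ble 8 k then
 (bif Nat.ble 12 k then
  (bif Nat.ble 14 k then
   (bif Nat.ble 15 k then
    (xw159 r) else
    (xw158 r)) else
   (bif Nat.ble 13 k then
    (xw157 r) else
    (xw156 r))) else
  (bif Nat.ble 10 k then
   (bif Nat.ble 11 k then
    (xw155 r) else
    (xw154 r)) else
   (bif Nat.ble 9 k then
    (xw153 r) else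
    (xw152 r)))) else
 (bif Nat.ble 4 k then
  (bif Nat.ble 6 k then
   (bif Nat.ble 7 k then
    (xw151 r) else
    (xw150 r)) else
   (bif Nat.ble 5 k then
    (xw149 r) else
    (xw148 r))) else
  (bif Nat.ble 2 k then
   (bif Nat.ble 3 k then
    (xw147 r) else
    (xw146 r)) else
   (bif Nat.ble 1 k then
    (xw145 r) else
    (xw144 r)))))

/-- chunks of the types `2560 ..` -/
def xs10 (k r : ℕ) : List ℕ :=
 (bif Nat.ble 8 k then
 (bif Nat.ble 12 k then
  (bif Nat.ble 14 k then
   (bif Nat.ble 15 k then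
    (xw175 r) else
    (xw174 r)) else
   (bif Nat.ble 13 k then
    (xw173 r) else
    (xw172 r))) else
  (bif Nat.ble 10 k then
   (bif Nat.ble 11 k then
    (xw171 r) else
    (xw170 r)) else
   (bif Nat.ble 9 k then
    (xw169 r) else
    (xw168 r)))) else
 (bif Nat.ble 4 k then
  (bif Nat.ble 6 k then
   (bif Nat.ble 7 k then
    (xw167 r) else
    (xw166 r)) else
   (bif Nat.ble 5 k then
    (xw165 r) else
    (xw164 r))) else
  (bif Nat.ble 2 k then
   (bif Nat.ble 3 k then
    (xw163 r) else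
    (xw162 r)) else
   (bif Nat.ble 1 k then
    (xw161 r) else
    (xw160 r)))))

/-- chunks of the types `2816 ..` -/
def xs11 (k r : ℕ) : List ℕ :=
 (bif Nat.ble 8 k then
 (bif Nat.ble 12 k then
  (bif Nat.ble 14 k then
   (bif Nat.ble 15 k then
    (xw191 r) else
    (xw190 r)) else
   (bif Nat.ble 13 k then
    (xw189 r) else
    (xw188 r))) else
  (bif Nat.ble 10 k then
   (bif Nat.ble 11 k then
    (xw187 r) else
    (xw186 r)) else
   (bif Nat.ble 9 k then
    (xw185 r) else
    (xw184 r)))) else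
 (bif Nat.ble 4 k then
  (bif Nat.ble 6 k then
   (bif Nat.ble 7 k then
    (xw183 r) else
    (xw182 r)) else
   (bif Nat.ble 5 k then
    (xw181 r) else
    (xw180 r))) else
  (bif Nat.ble 2 k then
   (bif Nat.ble 3 k then
    (xw179 r) else
    (xw178 r)) else
   (bif Nat.ble 1 k then
    (xw177 r) else
    (xw176 r)))))

/-- chunks of the types `3072 ..` -/
def xs12 (k r : ℕ) : List ℕ :=
 (bif Nat.ble 8 k then
 (bif Nat.ble 12 k then
  (bif Nat.ble 14 k then
   (bif Nat.ble 15 k then
    (xw207 r) else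
    (xw206 r)) else
   (bif Nat.ble 13 k then
    (xw205 r) else
    (xw204 r))) else
  (bif Nat.ble 10 k then
   (bif Nat.ble 11 k then
    (xw203 r) else
    (xw202 r)) else
   (bif Nat.ble 9 k then
    (xw201 r) else
    (xw200 r)))) else
 (bif Nat.ble 4 k then
  (bif Nat.ble 6 k then
   (bif Nat.ble 7 k then
    (xw199 r) else
    (xw198 r)) else
   (bif Nat.ble 5 k then
    (xw197 r) else
    (xw196 r))) else
  (bif Nat.ble 2 k then
   (bif Nat.ble 3 k then
    (xw195 r) else
    (xw194 r)) else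
   (bif Nat.ble 1 k then
    (xw193 r) else
    (xw192 r)))))

/-- chunks of the types `3328 ..` -/
def xs13 (k r : ℕ) : List ℕ :=
 (bif Nat.ble 8 k then
 (bif Nat.ble 12 k then
  (bif Nat.ble 14 k then
   (bif Nat.ble 15 k then
    (xw223 r) else
    (xw222 r)) else
   (bif Nat.ble 13 k then
    (xw221 r) else
    (xw220 r))) else
  (bif Nat.ble 10 k then
   (bif Nat.ble 11 k then
    (xw219 r) else
    (xw218 r)) else
   (bif Nat.ble 9 k then
    (xw217 r) else
    (xw216 r)))) else
 (bif Nat.ble 4 k then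
  (bif Nat.ble 6 k then
   (bif Nat.ble 7 k then
    (xw215 r) else
    (xw214 r)) else
   (bif Nat.ble 5 k then
    (xw213 r) else
    (xw212 r))) else
  (bif Nat.ble 2 k then
   (bif Nat.ble 3 k then
    (xw211 r) else
    (xw210 r)) else
   (bif Nat.ble 1 k then
    (xw209 r) else
    (xw208 r)))))

/-- chunks of the types `3584 ..` -/
def xs14 (k r : ℕ) : List ℕ :=
 (bif Nat.ble 8 k then
 (bif Nat.ble 12 k then
  (bif Nat.ble 14 k then
   (bif Nat.ble 15 k then
    (xw239 r) else
    (xw238 r)) else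
   (bif Nat.ble 13 k then
    (xw237 r) else
    (xw236 r))) else
  (bif Nat.ble 10 k then
   (bif Nat.ble 11 k then
    (xw235 r) else
    (xw234 r)) else
   (bif Nat.ble 9 k then
    (xw233 r) else
    (xw232 r)))) else
 (bif Nat.ble 4 k then
  (bif Nat.ble 6 k then
   (bif Nat.ble 7 k then
    (xw231 r) else
    (xw230 r)) else
   (bif Nat.ble 5 k then
    (xw229 r) else
    (xw228 r))) else
  (bif Nat.ble 2 k then
   (bif Nat.ble 3 k then
    (xw227 r) else
    (xw226 r)) else
   (bif Nat.ble 1 k then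
    (xw225 r) else
    (xw224 r)))))

/-- chunks of the types `3840 ..` -/
def xs15 (k r : ℕ) : List ℕ :=
 (bif Nat.ble 8 k then
 (bif Nat.ble 12 k then
  (bif Nat.ble 14 k then
   (bif Nat.ble 15 k then
    (xw255 r) else
    (xw254 r)) else
   (bif Nat.ble 13 k then
    (xw253 r) else
    (xw252 r))) else
  (bif Nat.ble 10 k then
   (bif Nat.ble 11 k then
    (xw251 r) else
    (xw250 r)) else
   (bif Nat.ble 9 k then
    (xw249 r) else
    (xw248 r)))) else
 (bif Nat.ble 4 k then
  (bif Nat.ble 6 k then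
   (bif Nat.ble 7 k then
    (xw247 r) else
    (xw246 r)) else
   (bif Nat.ble 5 k then
    (xw245 r) else
    (xw244 r))) else
  (bif Nat.ble 2 k then
   (bif Nat.ble 3 k then
    (xw243 r) else
    (xw242 r)) else
   (bif Nat.ble 1 k then
    (xw241 r) else
    (xw240 r)))))

/-- chunks of the types `4096 ..` -/
def xs16 (k r : ℕ) : List ℕ :=
 (bif Nat.ble 8 k then
 (bif Nat.ble 12 k then
  (bif Nat.ble 14 k then
   (bif Nat.ble 15 k then
    (xw271 r) else
    (xw270 r)) else
   (bif Nat.ble 13 k then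
    (xw269 r) else
    (xw268 r))) else
  (bif Nat.ble 10 k then
   (bif Nat.ble 11 k then
    (xw267 r) else
    (xw266 r)) else
   (bif Nat.ble 9 k then
    (xw265 r) else
    (xw264 r)))) else
 (bif Nat.ble 4 k then
  (bif Nat.ble 6 k then
   (bif Nat.ble 7 k then
    (xw263 r) else
    (xw262 r)) else
   (bif Nat.ble 5 k then
    (xw261 r) else
    (xw260 r))) else
  (bif Nat.ble 2 k then
   (bif Nat.ble 3 k then
    (xw259 r) else
    (xw258 r)) else
   (bif Nat.ble 1 k then
    (xw257 r) else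
    (xw256 r)))))

/-- chunks of the types `4352 ..` -/
def xs17 (k r : ℕ) : List ℕ :=
 (bif Nat.ble 8 k then
 (bif Nat.ble 12 k then
  (bif Nat.ble 14 k then
   (bif Nat.ble 15 k then
    (xw287 r) else
    (xw286 r)) else
   (bif Nat.ble 13 k then
    (xw285 r) else
    (xw284 r))) else
  (bif Nat.ble 10 k then
   (bif Nat.ble 11 k then
    (xw283 r) else
    (xw282 r)) else
   (bif Nat.ble 9 k then
    (xw281 r) else
    (xw280 r)))) else
 (bif Nat.ble 4 k then
  (bif Nat.ble 6 k then
   (bif Nat.ble 7 k then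
    (xw279 r) else
    (xw278 r)) else
   (bif Nat.ble 5 k then
    (xw277 r) else
    (xw276 r))) else
  (bif Nat.ble 2 k then
   (bif Nat.ble 3 k then
    (xw275 r) else
    (xw274 r)) else
   (bif Nat.ble 1 k then
    (xw273 r) else
    (xw272 r)))))

/-- chunks of the types `4608 ..` -/
def xs18 (k r : ℕ) : List ℕ :=
 (bif Nat.ble 8 k then
 (bif Nat.ble 12 k then
  (bif Nat.ble 14 k then
   (bif Nat.ble 15 k then
    (xw303 r) else
    (xw302 r)) else
   (bif Nat.ble 13 k then
    (xw301 r) else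
    (xw300 r))) else
  (bif Nat.ble 10 k then
   (bif Nat.ble 11 k then
    (xw299 r) else
    (xw298 r)) else
   (bif Nat.ble 9 k then
    (xw297 r) else
    (xw296 r)))) else
 (bif Nat.ble 4 k then
  (bif Nat.ble 6 k then
   (bif Nat.ble 7 k then
    (xw295 r) else
    (xw294 r)) else
   (bif Nat.ble 5 k then
    (xw293 r) else
    (xw292 r))) else
  (bif Nat.ble 2 k then
   (bif Nat.ble 3 k then
    (xw291 r) else
    (xw290 r)) else
   (bif Nat.ble 1 k then
    (xw289 r) else
    (xw288 r)))))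

/-- chunks of the types `4864 ..` -/
def xs19 (k r : ℕ) : List ℕ :=
 (bif Nat.ble 7 k then
 (bif Nat.ble 11 k then
  (bif Nat.ble 13 k then
   (xw317 r) else
   (bif Nat.ble 12 k then
    (xw316 r) else
    (xw315 r))) else
  (bif Nat.ble 9 k then
   (bif Nat.ble 10 k then
    (xw314 r) else
    (xw313 r)) else
   (bif Nat.ble 8 k then
    (xw312 r) else
    (xw311 r)))) else
 (bif Nat.ble 4 k then
  (bif Nat.ble 6 k then
   (xw310 r) else
   (bif Nat.ble 5 k then
    (xw309 r) else
    (xw308 r))) else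
  (bif Nat.ble 2 k then
   (bif Nat.ble 3 k then
    (xw307 r) else
    (xw306 r)) else
   (bif Nat.ble 1 k then
    (xw305 r) else
    (xw304 r)))))

/-- chunks of the type `t` -/
def rowX (t : ℕ) : List ℕ :=
 (bif Nat.ble 10 (Nat.shiftRight t 8) then
 (bif Nat.ble 15 (Nat.shiftRight t 8) then
  (bif Nat.ble 18 (Nat.shiftRight t 8) then
   (bif Nat.ble 19 (Nat.shiftRight t 8) then
    (xs19 (Nat.land (Nat.shiftRight t 4) 15) (Nat.land t 15)) else
    (xs18 (Nat.land (Nat.shiftRight t 4) 15) (Nat.land t 15))) else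
   (bif Nat.ble 17 (Nat.shiftRight t 8) then
    (xs17 (Nat.land (Nat.shiftRight t 4) 15) (Nat.land t 15)) else
    (bif Nat.ble 16 (Nat.shiftRight t 8) then
     (xs16 (Nat.land (Nat.shiftRight t 4) 15) (Nat.land t 15)) else
     (xs15 (Nat.land (Nat.shiftRight t 4) 15) (Nat.land t 15))))) else
  (bif Nat.ble 13 (Nat.shiftRight t 8) then
   (bif Nat.ble 14 (Nat.shiftRight t 8) then
    (xs14 (Nat.land (Nat.shiftRight t 4) 15) (Nat.land t 15)) else
    (xs13 (Nat.land (Nat.shiftRight t 4) 15) (Nat.land t 15))) else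
   (bif Nat.ble 12 (Nat.shiftRight t 8) then
    (xs12 (Nat.land (Nat.shiftRight t 4) 15) (Nat.land t 15)) else
    (bif Nat.ble 11 (Nat.shiftRight t 8) then
     (xs11 (Nat.land (Nat.shiftRight t 4) 15) (Nat.land t 15)) else
     (xs10 (Nat.land (Nat.shiftRight t 4) 15) (Nat.land t 15)))))) else
 (bif Nat.ble 5 (Nat.shiftRight t 8) then
  (bif Nat.ble 8 (Nat.shiftRight t 8) then
   (bif Nat.ble 9 (Nat.shiftRight t 8) then
    (xs9 (Nat.land (Nat.shiftRight t 4) 15) (Nat.land t 15)) else
    (xs8 (Nat.land (Nat.shiftRight t 4) 15) (Nat.land t 15))) else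
   (bif Nat.ble 7 (Nat.shiftRight t 8) then
    (xs7 (Nat.land (Nat.shiftRight t 4) 15) (Nat.land t 15)) else
    (bif Nat.ble 6 (Nat.shiftRight t 8) then
     (xs6 (Nat.land (Nat.shiftRight t 4) 15) (Nat.land t 15)) else
     (xs5 (Nat.land (Nat.shiftRight t 4) 15) (Nat.land t 15))))) else
  (bif Nat.ble 3 (Nat.shiftRight t 8) then
   (bif Nat.ble 4 (Nat.shiftRight t 8) then
    (xs4 (Nat.land (Nat.shiftRight t 4) 15) (Nat.land t 15)) else
    (xs3 (Nat.land (Nat.shiftRight t 4) 15) (Nat.land t 15))) else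
   (bif Nat.ble 2 (Nat.shiftRight t 8) then
    (xs2 (Nat.land (Nat.shiftRight t 4) 15) (Nat.land t 15)) else
    (bif Nat.ble 1 (Nat.shiftRight t 8) then
     (xs1 (Nat.land (Nat.shiftRight t 4) 15) (Nat.land t 15)) else
     (xs0 (Nat.land (Nat.shiftRight t 4) 15) (Nat.land t 15)))))))

end Pool.Agent.Helper52.TB
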